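import Pool.Agent.HIP.Stmts

/-! HIP, module CLI: few integral points in one residue class, monomials in both variables. -/

set_option autoImplicit false

namespace Pool.Agent.HIP.H15

open Polynomial NumberField Matrix Pool.Agent.MTL Pool.Agent.HIK Pool.Agent.HIP

/-- the polynomial of a linear relation between the monomials -/
theorem exh {A : Type} [CommRing A] [IsDomain A] (D M : ℕ)
    (c : Fin D × Fin (M + 1) → A) (hc : c ≠ 0) (a : A) :
    ∃ h : A[X][X], h ≠ 0 ∧ h.natDegree < D ∧ (∀ j, (h.coeff j).natDegree ≤ M) ∧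
      ∀ t y : A, evalEval t y h =
        ∑ r : Fin D × Fin (M + 1), (t - a) ^ (r.2 : ℕ) * y ^ (r.1 : ℕ) * c r := by
  classical
  let P : Fin D → A[X] := fun j => ∑ i : Fin (M + 1), C (c (j, i)) * (X - C a) ^ (i : ℕ)
  let h : A[X][X] := ∑ j : Fin D, C (P j) * X ^ (j : ℕ)
  have hco : ∀ j : Fin D, h.coeff j = P j := by
    intro j
    simp only [h, finset_sum_coeff, coeff_C_mul, coeff_X_pow]
    rw [Finset.sum_eq_single j]
    · simp
    · intro b _ hb
      rw [if_neg (fun h => hb (Fin.ext h.symm)), mul_zero]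
    · intro h
      exact absurd (Finset.mem_univ j) h
  have hco' : ∀ n, D ≤ n → h.coeff n = 0 := by
    intro n hn
    simp only [h, finset_sum_coeff, coeff_C_mul, coeff_X_pow]
    apply Finset.sum_eq_zero
    intro j _
    have := j.2
    rw [if_neg (by omega), mul_zero]
  have hne : h ≠ 0 := by
    intro h0
    obtain ⟨⟨j, i⟩, hji⟩ := Function.ne_iff.mp hc
    apply hji
    have h1 : P j = 0 := by
      rw [← hco j, h0, coeff_zero]
    have h2 : (P j).comp (X + C a) = ∑ i : Fin (M + 1), C (c (j, i)) * X ^ (i : ℕ) := by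
      simp only [P]
      rw [Polynomial.sum_comp]
      refine Finset.sum_congr rfl fun k _ => ?_
      rw [mul_comp, C_comp, pow_comp, sub_comp, X_comp, C_comp, add_sub_cancel_right]
    rw [h1, zero_comp] at h2
    have h3 := congrArg (fun q : A[X] => q.coeff (i : ℕ)) h2
    simp only [coeff_zero, finset_sum_coeff, coeff_C_mul, coeff_X_pow] at h3
    rw [Finset.sum_eq_single i (fun b _ hb => by
      rw [if_neg (fun h => hb (Fin.ext h.symm)), mul_zero])
      (fun h => absurd (Finset.mem_univ i) h), if_pos rfl, mul_one] at h3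
    exact h3.symm
  refine ⟨h, hne, ?_, ?_, ?_⟩
  · by_contra hlt
    rw [not_lt] at hlt
    apply hne
    rw [← leadingCoeff_eq_zero]
    exact hco' _ hlt
  · intro j
    by_cases hj : j < D
    · have h1 := hco ⟨j, hj⟩
      simp only at h1
      rw [h1]
      refine natDegree_sum_le_of_forall_le _ _ fun i _ => ?_
      refine (natDegree_C_mul_le _ _).trans ?_
      refine natDegree_pow_le.trans ?_
      have h2 := natDegree_X_sub_C_le a
      have h3 := i.2
      calc (i : ℕ) * (X - C a).natDegree ≤ (i : ℕ) * 1 := Nat.mul_le_mul_left _ h2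
        _ ≤ M := by omega
    · rw [hco' j (not_lt.1 hj), natDegree_zero]
      exact Nat.zero_le _
  · intro t y
    simp only [evalEval, h, P]
    rw [eval_finset_sum, eval_finset_sum, Fintype.sum_prod_type]
    refine Finset.sum_congr rfl fun j _ => ?_
    rw [eval_mul, eval_C, eval_mul, eval_pow, eval_X, eval_finset_sum, eval_pow, eval_C,
      Finset.sum_mul]
    refine Finset.sum_congr rfl fun i _ => ?_
    rw [eval_mul, eval_C, eval_pow, eval_sub, eval_X, eval_C]
    ring

/-- the product of the bounds -/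
theorem prodb (D M : ℕ) (T Y : ℝ) :
    ∏ r : Fin (D * (M + 1)), (T ^ ((finProdFinEquiv.symm r).2 : ℕ) *
      Y ^ ((finProdFinEquiv.symm r).1 : ℕ)) =
      T ^ (D * ∑ i ∈ Finset.range (M + 1), i) * Y ^ ((M + 1) * ∑ j ∈ Finset.range D, j) := by
  have h1 : ∏ r : Fin (D * (M + 1)), (T ^ ((finProdFinEquiv.symm r).2 : ℕ) *
      Y ^ ((finProdFinEquiv.symm r).1 : ℕ)) =
      ∏ x : Fin D × Fin (M + 1), (T ^ (x.2 : ℕ) * Y ^ (x.1 : ℕ)) :=
    Equiv.prod_comp finProdFinEquiv.symm
      (fun x : Fin D × Fin (M + 1) => T ^ (x.2 : ℕ) * Y ^ (x.1 : ℕ))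
  rw [h1, Finset.prod_mul_distrib, Finset.prod_pow_eq_pow_sum, Finset.prod_pow_eq_pow_sum,
    Fintype.sum_prod_type, Fintype.sum_prod_type]
  congr 2
  · change ∑ _x : Fin D, ∑ z : Fin (M + 1), (z : ℕ) = _
    rw [Finset.sum_const, Finset.card_univ, Fintype.card_fin, smul_eq_mul]
    congr 1
    exact Fin.sum_univ_eq_sum_range (fun i => i) (M + 1)
  · rw [← Fin.sum_univ_eq_sum_range (fun i => i) D, Finset.mul_sum]
    refine Finset.sum_congr rfl fun j _ => ?_
    change ∑ _z : Fin (M + 1), (j : ℕ) = _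
    rw [Finset.sum_const, Finset.card_univ, Fintype.card_fin, smul_eq_mul]

/-- CLI -/
theorem cli (hD : DetStmt) (hM : MnmStmt) (hH : HsdStmt) (hL : LnvStmt) (hN : NrmStmt) :
    CliStmt := by
  classical
  intro K _ _ g hg M
  obtain ⟨B, hB⟩ := hN (𝓞 K) g hg.monic hg.irr M
  refine ⟨B, ?_⟩
  intro p hp a0 y0 n0 T Y hnT hT1 h0 h1 hbig S y hST hSt hSy hroot hY
  obtain ⟨v, hv⟩ := h1
  have hdeg := hg.deg
  obtain ⟨D, hDg⟩ : ∃ D : ℕ, D = g.natDegree := ⟨_, rfl⟩
  rw [← hDg] at hdeg hbig hB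
  have hR : 1 ≤ D * (M + 1) := Nat.mul_pos (by omega) (by omega)
  obtain ⟨c, hc⟩ := HIK.H15.tay (𝓞 K) g (p : 𝓞 K) (a0 + n0) y0 v h0 hv (D * (M + 1)) hR
  choose cc hcc using hM (𝓞 K) (p : 𝓞 K) (D * (M + 1)) c
  -- the vectors
  let e : Fin (D * (M + 1)) ≃ Fin D × Fin (M + 1) := finProdFinEquiv.symm
  let w : ℕ → Fin (D * (M + 1)) → 𝓞 K := fun n r =>
    (((n : ℤ) - n0 : ℤ) : 𝓞 K) ^ ((e r).2 : ℕ) * (y n) ^ ((e r).1 : ℕ)
  have hdet : ∀ f : Fin (D * (M + 1)) → ℕ, (∀ i, f i ∈ S) →
      (Matrix.of fun i r => w (f i) r).det = 0 := by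
    intro f hf
    have hb : ∀ i, ∃ b : ℤ, (f i : ℤ) - n0 = p * b := fun i => hSt (f i) (hf i)
    choose b hb using hb
    have hbO : ∀ i, (((f i : ℤ) - n0 : ℤ) : 𝓞 K) = (p : 𝓞 K) * (b i : 𝓞 K) := by
      intro i
      rw [hb i]
      push_cast
      rfl
    have hdvd := hD (𝓞 K) (D * (M + 1)) (p : 𝓞 K) (fun i => (b i : 𝓞 K))
      (Matrix.of fun i r => w (f i) r) (fun r => cc ((e r).2 : ℕ) ((e r).1 : ℕ)) (by
        intro i r
        change (p : 𝓞 K) ^ (D * (M + 1)) ∣ w (f i) r - _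
        simp only [w]
        rw [hbO i]
        refine hcc _ _ (b i : 𝓞 K) (y (f i)) ?_
        refine hc (b i) (y (f i)) (hSy _ (hf i)) ?_
        have h2 : a0 + (n0 : 𝓞 K) + (p : 𝓞 K) * (b i : 𝓞 K) = a0 + ((f i : ℕ) : 𝓞 K) := by
          rw [← hbO i]
          push_cast
          ring
        rw [h2]
        exact hroot _ (hf i))
    have hle := hH K (D * (M + 1)) (Matrix.of fun i r => ((w (f i) r : 𝓞 K) : K))
      (fun r => (T : ℝ) ^ ((e r).2 : ℕ) * (Y : ℝ) ^ ((e r).1 : ℕ)) (by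
        intro i r
        change house ((w (f i) r : 𝓞 K) : K) ≤ _
        have h2 : ((w (f i) r : 𝓞 K) : K) =
            (((f i : ℤ) - n0 : ℤ) : K) ^ ((e r).2 : ℕ) *
              ((y (f i) : 𝓞 K) : K) ^ ((e r).1 : ℕ) := by
          simp only [w]
          push_cast
          rfl
        rw [h2]
        refine (house_mul_le _ _).trans ?_
        refine mul_le_mul ((house_pow_le _ _).trans (pow_le_pow_left₀ (house_nonneg _) ?_ _))
          ((house_pow_le _ _).trans (pow_le_pow_left₀ (house_nonneg _) (hY _ (hf i)) _))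
          (house_nonneg _) (by positivity)
        rw [house_intCast]
        have h3 : |(f i : ℤ) - n0| ≤ (T : ℤ) := by
          have := hST _ (hf i)
          rw [abs_le]
          constructor <;> omega
        exact_mod_cast h3)
    refine HIK.H10.eq_zero_of_house (p ^ (∑ k ∈ Finset.range (D * (M + 1)), k)) _ ?_ ?_
    · push_cast
      exact hdvd
    · have h4 : (((Matrix.of fun i r => w (f i) r).det : 𝓞 K) : K) =
          (Matrix.of fun i r => ((w (f i) r : 𝓞 K) : K)).det := by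
        have h := RingHom.map_det (algebraMap (𝓞 K) K) (Matrix.of fun i r => w (f i) r)
        refine h.trans ?_
        congr 1
      rw [h4]
      refine lt_of_le_of_lt hle ?_
      rw [prodb]
      exact_mod_cast hbig
  -- the linear relation
  obtain ⟨q, hq0, hq⟩ := hL K (D * (M + 1)) S (fun n r => ((w n r : 𝓞 K) : K)) (by
    intro f _ hf
    have h4 : (((Matrix.of fun i r => w (f i) r).det : 𝓞 K) : K) =
        (Matrix.of fun i r => ((w (f i) r : 𝓞 K) : K)).det := by
      have h := RingHom.map_det (algebraMap (𝓞 K) K) (Matrix.of fun i r => w (f i) r)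
      refine h.trans ?_
      congr 1
    rw [← h4, hdet f hf]
    rfl)
  obtain ⟨d, hd⟩ := IsLocalization.exist_integer_multiples_of_finite
    (nonZeroDivisors (𝓞 K)) q
  choose q' hq' using hd
  have hd0 : (algebraMap (𝓞 K) K (d : 𝓞 K)) ≠ 0 := by
    have h2 : (d : 𝓞 K) ≠ 0 := nonZeroDivisors.ne_zero d.2
    intro h3
    exact h2 ((FaithfulSMul.algebraMap_injective (𝓞 K) K) (by rw [h3, map_zero]))
  have hqr : ∀ r, algebraMap (𝓞 K) K (q' r) = algebraMap (𝓞 K) K (d : 𝓞 K) * q r := by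
    intro r
    rw [hq' r, Algebra.smul_def]
  have hrel : ∀ n ∈ S, ∑ r, w n r * q' r = 0 := by
    intro n hn
    apply FaithfulSMul.algebraMap_injective (𝓞 K) K
    rw [map_sum, map_zero]
    have h2 := hq n hn
    calc ∑ r, algebraMap (𝓞 K) K (w n r * q' r) =
        algebraMap (𝓞 K) K (d : 𝓞 K) * ∑ r, ((w n r : 𝓞 K) : K) * q r := by
          rw [Finset.mul_sum]
          refine Finset.sum_congr rfl fun r _ => ?_
          rw [map_mul, hqr]
          ring
      _ = 0 := by rw [h2, mul_zero]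
  have hq'0 : (fun x : Fin D × Fin (M + 1) => q' (e.symm x)) ≠ 0 := by
    intro h2
    apply hq0
    funext r
    have h3 := congrFun h2 (e r)
    simp only [Equiv.symm_apply_apply, Pi.zero_apply] at h3
    have h4 := hqr r
    rw [h3, map_zero] at h4
    rcases mul_eq_zero.1 h4.symm with h5 | h5
    · exact absurd h5 hd0
    · exact h5
  obtain ⟨h, hh0, hh1, hh2, hh3⟩ := exh D M (fun x => q' (e.symm x)) hq'0 (a0 + n0)
  have hinj : Function.Injective (fun n : ℕ => a0 + (n : 𝓞 K)) := by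
    intro m n hmn
    have : (m : 𝓞 K) = n := add_left_cancel hmn
    exact_mod_cast this
  rw [← Finset.card_image_of_injective S hinj]
  refine hB h hh0 hh1 hh2 _ ?_
  intro t ht
  obtain ⟨n, hn, rfl⟩ := Finset.mem_image.1 ht
  refine ⟨y n, hroot n hn, ?_⟩
  rw [hh3, ← hrel n hn]
  rw [← Equiv.sum_comp e]
  refine Finset.sum_congr rfl fun r _ => ?_
  simp only [w, Equiv.symm_apply_apply]
  congr 3
  push_cast
  ring

end Pool.Agent.HIP.H15
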